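import Pool.Agent.Q107.QC.Ring

/-!
# The congruence for rational functions
-/

set_option autoImplicit false

namespace Pool.Agent.Q107.QC

open Finset Polynomial

section ring

variable {A : Type*} [CommRing A]

/-- products over the multiples of `n` -/
theorem prod_mult (n : ℕ) (F : ℕ → A) : ∀ j b, 0 < b → b ≤ n →
    ∏ u ∈ range (n * j + b), (if n ∣ u then F (u / n) else 1) = ∏ v ∈ range (j + 1), F v := by
  intro j
  induction j with
  | zero =>
    intro b hb hbn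
    obtain ⟨c, rfl⟩ : ∃ c, b = c + 1 := ⟨b - 1, by omega⟩
    rw [mul_zero, zero_add, prod_range_succ', if_pos (dvd_zero n), Nat.zero_div]
    rw [prod_eq_one, one_mul]
    · simp
    · intro w hw
      rw [mem_range] at hw
      rw [if_neg]
      intro hd
      have := Nat.le_of_dvd (by omega) hd
      omega
  | succ j ih =>
    intro b hb hbn
    have hn : 0 < n := by omega
    have h1 : n * (j + 1) + b = (n * j + n) + b := by ring
    rw [h1, prod_range_add, ih n hn le_rfl, prod_range_succ _ (j + 1)]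
    congr 1
    obtain ⟨c, rfl⟩ : ∃ c, b = c + 1 := ⟨b - 1, by omega⟩
    rw [prod_range_succ']
    have e : n * j + n + 0 = n * (j + 1) := by ring
    rw [e, if_pos (Dvd.intro _ rfl), Nat.mul_div_cancel_left _ hn, prod_eq_one, one_mul]
    intro w hw
    rw [mem_range] at hw
    rw [if_neg]
    intro hd
    have e2 : n * j + n + (w + 1) = n * (j + 1) + (w + 1) := by ring
    rw [e2] at hd
    have := (Nat.dvd_add_right (Dvd.intro _ rfl)).1 hd
    have := Nat.le_of_dvd (by omega) this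
    omega

theorem allO (x : A) (M : ℕ) : ∏ u ∈ range (2 * M + 1), (if u % 2 = 1 then 1 - x ^ u else 1) =
    ∏ j ∈ range M, (1 - x * (x ^ 2) ^ j) := by
  induction M with
  | zero => simp
  | succ M ih =>
    rw [show 2 * (M + 1) + 1 = 2 * M + 1 + 1 + 1 by ring, prod_range_succ, prod_range_succ, ih,
      prod_range_succ, if_pos (by omega), if_neg (by omega), mul_one, ← pow_mul, ← pow_succ']

theorem allE (x : A) (M : ℕ) :
    ∏ u ∈ range (2 * M + 1), (if u % 2 = 0 ∧ u ≠ 0 then 1 - x ^ u else 1) =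
      ∏ j ∈ range M, (1 - x ^ 2 * (x ^ 2) ^ j) := by
  induction M with
  | zero => simp
  | succ M ih =>
    rw [show 2 * (M + 1) + 1 = 2 * M + 1 + 1 + 1 by ring, prod_range_succ, prod_range_succ, ih,
      prod_range_succ, if_neg (by omega), if_pos (by omega), mul_one, ← pow_succ', ← pow_mul,
      show 2 * M + 1 + 1 = 2 * (M + 1) by ring]

theorem factor_O (x : A) (n : ℕ) (hn : n % 4 = 1) (M M' : ℕ) (h : 2 * M + 1 = n * (2 * M') + ((n - 1) / 2 + 1)) :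
    (∏ u ∈ range (2 * M + 1), gO n x u) * ∏ j ∈ range M', (1 - x ^ n * (x ^ (2 * n)) ^ j) =
      ∏ j ∈ range M, (1 - x * (x ^ 2) ^ j) := by
  have h1 : ∏ j ∈ range M', (1 - x ^ n * (x ^ (2 * n)) ^ j) =
      ∏ u ∈ range (2 * M + 1), (if n ∣ u then (if (u / n) % 2 = 1 then 1 - (x ^ n) ^ (u / n) else 1)
        else 1) := by
    rw [h, prod_mult n (fun v => if v % 2 = 1 then 1 - (x ^ n) ^ v else 1) (2 * M') _ (by omega)
      (by omega), allO]
    refine prod_congr rfl fun j _ => ?_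
    rw [← pow_mul x n 2, mul_comm n 2]
  rw [h1, ← allO, ← prod_mul_distrib]
  refine prod_congr rfl fun u _ => ?_
  unfold gO
  by_cases hd : n ∣ u
  · obtain ⟨v, rfl⟩ := hd
    rw [if_neg (by simp), one_mul, if_pos (Dvd.intro _ rfl), Nat.mul_div_cancel_left _ (by omega)]
    have : (n * v) % 2 = v % 2 := by
      rw [Nat.mul_mod, show n % 2 = 1 by omega, one_mul, Nat.mod_mod]
    rw [this, pow_mul]
  · rw [if_neg hd, mul_one]
    simp only [hd, not_false_eq_true, and_true]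

theorem factor_E (x : A) (n : ℕ) (hn : n % 4 = 1) (M M' : ℕ) (h : 2 * M + 1 = n * (2 * M') + ((n - 1) / 2 + 1)) :
    (∏ u ∈ range (2 * M + 1), gE n x u) *
      ∏ j ∈ range M', (1 - x ^ (2 * n) * (x ^ (2 * n)) ^ j) =
      ∏ j ∈ range M, (1 - x ^ 2 * (x ^ 2) ^ j) := by
  have h1 : ∏ j ∈ range M', (1 - x ^ (2 * n) * (x ^ (2 * n)) ^ j) =
      ∏ u ∈ range (2 * M + 1), (if n ∣ u then
        (if (u / n) % 2 = 0 ∧ u / n ≠ 0 then 1 - (x ^ n) ^ (u / n) else 1) else 1) := by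
    rw [h, prod_mult n (fun v => if v % 2 = 0 ∧ v ≠ 0 then 1 - (x ^ n) ^ v else 1) (2 * M') _
      (by omega) (by omega), allE]
    refine prod_congr rfl fun j _ => ?_
    rw [← pow_mul x n 2, mul_comm n 2]
  rw [h1, ← allE, ← prod_mul_distrib]
  refine prod_congr rfl fun u _ => ?_
  unfold gE
  by_cases hd : n ∣ u
  · obtain ⟨v, rfl⟩ := hd
    rw [if_neg (by simp), one_mul, if_pos (Dvd.intro _ rfl), Nat.mul_div_cancel_left _ (by omega)]
    have e1 : (n * v) % 2 = v % 2 := by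
      rw [Nat.mul_mod, show n % 2 = 1 by omega, one_mul, Nat.mod_mod]
    have e2 : n * v ≠ 0 ↔ v ≠ 0 := by
      rw [ne_eq, mul_eq_zero, not_or]
      exact ⟨fun h => h.2, fun h => ⟨by omega, h⟩⟩
    simp only [e1, e2]
    rw [pow_mul]
  · rw [if_neg hd, mul_one]
    have : u ≠ 0 := by rintro rfl; exact hd (dvd_zero n)
    simp only [hd, not_false_eq_true, and_true, this, ne_eq]

end ring

theorem pow_mod_four (n k : ℕ) (hn : n % 4 = 1) : n ^ k % 4 = 1 := by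
  rw [Nat.pow_mod, hn, one_pow, Nat.one_mod_eq_one.2 (by norm_num)]

theorem size_eq (n t : ℕ) (hn : n % 4 = 1) : 2 * ((n ^ (t + 1) - 1) / 4) + 1 =
    n * (2 * ((n ^ t - 1) / 4)) + ((n - 1) / 2 + 1) := by
  have h4 := pow_mod_four n t hn
  obtain ⟨a, ha⟩ : ∃ a, n ^ t = 4 * a + 1 := ⟨n ^ t / 4, by omega⟩
  obtain ⟨b, hb⟩ : ∃ b, n = 4 * b + 1 := ⟨n / 4, by omega⟩
  have h5 : (n ^ t - 1) / 4 = a := by omega
  have h6 : (n - 1) / 2 = 2 * b := by omega
  have h7 : n ^ (t + 1) = (4 * a + 1) * (4 * b + 1) := by rw [pow_succ, ha]; rw [← hb]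
  rw [h5, h6, h7, hb]
  have h8 : (4 * a + 1) * (4 * b + 1) = 4 * ((4 * b + 1) * a + b) + 1 := by ring
  rw [h8]
  have h9 : (4 * b + 1) * (2 * a) = 2 * ((4 * b + 1) * a) := by ring
  omega

theorem dvd_diff {n s k : ℕ} (hn : n % 4 = 1) (hs : 0 < s) :
    (cyclotomic (n ^ s) ℚ) ^ 2 ∣
      (∏ u ∈ range ((n ^ s - 1) / 2 + 1 + 2 * n ^ s * k), gO n (X : ℚ[X]) u) *
        (∏ u ∈ range ((n ^ s - 1) / 2 + 1), gE n X u) -
      (∏ u ∈ range ((n ^ s - 1) / 2 + 1), gO n X u) *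
        (∏ u ∈ range ((n ^ s - 1) / 2 + 1 + 2 * n ^ s * k), gE n X u) := by
  set I := Ideal.span {(cyclotomic (n ^ s) ℚ) ^ 2} with hI
  rw [← Ideal.mem_span_singleton, ← hI, ← Ideal.Quotient.eq_zero_iff_mem]
  have hx : ((Ideal.Quotient.mk I X) ^ (n ^ s) - 1) ^ 2 = 0 := by
    rw [← map_pow, ← map_one (Ideal.Quotient.mk I), ← map_sub, ← map_pow,
      Ideal.Quotient.eq_zero_iff_mem, hI, Ideal.mem_span_singleton]
    exact pow_dvd_pow_of_dvd (cyclotomic.dvd_X_pow_sub_one _ ℚ) 2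
  have h := ratio_eq hn hs hx k
  have hO : ∀ N, Ideal.Quotient.mk I (∏ u ∈ range N, gO n (X : ℚ[X]) u) =
      ∏ u ∈ range N, gO n (Ideal.Quotient.mk I X) u := by
    intro N
    rw [map_prod]
    refine prod_congr rfl fun u _ => ?_
    unfold gO
    split_ifs <;> simp
  have hE : ∀ N, Ideal.Quotient.mk I (∏ u ∈ range N, gE n (X : ℚ[X]) u) =
      ∏ u ∈ range N, gE n (Ideal.Quotient.mk I X) u := by
    intro N
    rw [map_prod]
    refine prod_congr rfl fun u _ => ?_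
    unfold gE
    split_ifs <;> simp
  rw [map_sub, map_mul, map_mul, hO, hO, hE, hE, h, sub_self]

theorem coprime_one_sub {P u : ℕ} (hP : 0 < P) (hu : ¬ P ∣ u) :
    IsCoprime (cyclotomic P ℚ) (1 - X ^ u) := by
  rw [(cyclotomic.irreducible_rat hP).coprime_iff_not_dvd]
  intro hd
  apply hu
  obtain ⟨c, hc⟩ := hd
  have hζ := Complex.isPrimitiveRoot_exp P hP.ne'
  have h1 : (cyclotomic P ℂ).eval (Complex.exp (2 * Real.pi * Complex.I / P)) = 0 :=
    hζ.isRoot_cyclotomic hP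
  have h2 := congrArg (fun p : ℚ[X] => (p.map (algebraMap ℚ ℂ)).eval
    (Complex.exp (2 * Real.pi * Complex.I / P))) hc
  simp only [Polynomial.map_sub, Polynomial.map_one, Polynomial.map_pow, map_X, eval_sub, eval_one,
    eval_pow, eval_X, Polynomial.map_mul, map_cyclotomic, eval_mul, h1, zero_mul] at h2
  exact hζ.dvd_of_pow_eq_one u (sub_eq_zero.1 h2).symm

theorem coprime_E {n s : ℕ} (hn : 0 < n) (hs : 0 < s) (N : ℕ) :
    IsCoprime ((cyclotomic (n ^ s) ℚ) ^ 2) (∏ u ∈ range N, gE n (X : ℚ[X]) u) := by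
  refine IsCoprime.pow_left (IsCoprime.prod_right fun u _ => ?_)
  unfold gE
  split_ifs with h
  · refine coprime_one_sub (pow_pos hn s) fun hd => h.2 ?_
    exact (dvd_pow_self n (by omega)).trans hd
  · exact isCoprime_one_right

theorem num_denom_of {F : RatFunc ℚ} {a b P : ℚ[X]} (hb : b ≠ 0)
    (h : F = algebraMap ℚ[X] (RatFunc ℚ) a / algebraMap ℚ[X] (RatFunc ℚ) b) (hP : P ∣ a)
    (hc : IsCoprime P b) : P ∣ F.num ∧ IsCoprime P F.denom := by
  have h1 : F.num * b = a * F.denom := (RatFunc.num_mul_eq_mul_denom_iff hb).2 h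
  constructor
  · have : P ∣ F.num * b := by rw [h1]; exact hP.mul_right _
    exact hc.dvd_of_dvd_mul_right this
  · have h2 : F.denom ∣ F.num * b := by rw [h1]; exact Dvd.intro_left _ rfl
    have h3 : F.denom ∣ b := (RatFunc.isCoprime_num_denom F).symm.dvd_of_dvd_mul_left h2
    exact IsCoprime.of_isCoprime_of_dvd_right hc h3

theorem one_sub_ne {u : ℕ} (hu : 0 < u) : (1 - RatFunc.X ^ u : RatFunc ℚ) ≠ 0 := by
  have h : (1 - X ^ u : ℚ[X]) ≠ 0 := by
    intro h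
    have := congrArg (fun p => coeff p 0) h
    simp [coeff_X_pow, hu.ne] at this
  have h2 := (map_ne_zero_iff (algebraMap ℚ[X] (RatFunc ℚ)) (RatFunc.algebraMap_injective ℚ)).2 h
  simpa using h2

theorem gE_ne (n : ℕ) (N : ℕ) : (∏ u ∈ range N, gE n (X : ℚ[X]) u) ≠ 0 := by
  rw [prod_ne_zero_iff]
  intro u _
  unfold gE
  split_ifs with h
  · have hu : 0 < u := by
      rcases Nat.eq_zero_or_pos u with rfl | h1
      · exact absurd (dvd_zero n) h.2
      · exact h1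
    intro h
    have := congrArg (fun p => coeff p 0) h
    simp [coeff_X_pow, hu.ne] at this
  · exact one_ne_zero

/-- the quotient in reduced form -/
theorem quotient_eq {n : ℕ} (hn : n % 4 = 1) (t : ℕ) :
    (∏ j ∈ range ((n ^ (t + 1) - 1) / 4), (1 - RatFunc.X * (RatFunc.X ^ 2) ^ j : RatFunc ℚ)) *
      (∏ j ∈ range ((n ^ t - 1) / 4),
        (1 - RatFunc.X ^ (2 * n) * (RatFunc.X ^ (2 * n)) ^ j : RatFunc ℚ)) /
      ((∏ j ∈ range ((n ^ (t + 1) - 1) / 4), (1 - RatFunc.X ^ 2 * (RatFunc.X ^ 2) ^ j : RatFunc ℚ)) *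
      (∏ j ∈ range ((n ^ t - 1) / 4),
        (1 - RatFunc.X ^ n * (RatFunc.X ^ (2 * n)) ^ j : RatFunc ℚ))) =
    algebraMap ℚ[X] (RatFunc ℚ) (∏ u ∈ range ((n ^ (t + 1) - 1) / 2 + 1), gO n (X : ℚ[X]) u) /
      algebraMap ℚ[X] (RatFunc ℚ) (∏ u ∈ range ((n ^ (t + 1) - 1) / 2 + 1), gE n (X : ℚ[X]) u) := by
  have hn0 : 0 < n := by omega
  have h4 := pow_mod_four n (t + 1) hn
  have hN : (n ^ (t + 1) - 1) / 2 + 1 = 2 * ((n ^ (t + 1) - 1) / 4) + 1 := by omega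
  have hO : algebraMap ℚ[X] (RatFunc ℚ) (∏ u ∈ range ((n ^ (t + 1) - 1) / 2 + 1), gO n (X : ℚ[X]) u) =
      ∏ u ∈ range (2 * ((n ^ (t + 1) - 1) / 4) + 1), gO n (RatFunc.X : RatFunc ℚ) u := by
    rw [hN, map_prod]
    refine prod_congr rfl fun u _ => ?_
    unfold gO
    split_ifs <;> simp
  have hE : algebraMap ℚ[X] (RatFunc ℚ) (∏ u ∈ range ((n ^ (t + 1) - 1) / 2 + 1), gE n (X : ℚ[X]) u) =
      ∏ u ∈ range (2 * ((n ^ (t + 1) - 1) / 4) + 1), gE n (RatFunc.X : RatFunc ℚ) u := by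
    rw [hN, map_prod]
    refine prod_congr rfl fun u _ => ?_
    unfold gE
    split_ifs <;> simp
  have hEne : ∏ u ∈ range (2 * ((n ^ (t + 1) - 1) / 4) + 1), gE n (RatFunc.X : RatFunc ℚ) u ≠ 0 := by
    rw [← hE]
    exact (map_ne_zero_iff _ (RatFunc.algebraMap_injective ℚ)).2 (gE_ne n _)
  rw [hO, hE, ← factor_O RatFunc.X n hn _ _ (size_eq n t hn),
    ← factor_E RatFunc.X n hn _ _ (size_eq n t hn)]
  have hY : ∏ j ∈ range ((n ^ t - 1) / 4),
      (1 - RatFunc.X ^ n * (RatFunc.X ^ (2 * n)) ^ j : RatFunc ℚ) ≠ 0 := by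
    rw [prod_ne_zero_iff]
    intro j _
    rw [← pow_mul, ← pow_add]
    exact one_sub_ne (by omega)
  have hZ : ∏ j ∈ range ((n ^ t - 1) / 4),
      (1 - RatFunc.X ^ (2 * n) * (RatFunc.X ^ (2 * n)) ^ j : RatFunc ℚ) ≠ 0 := by
    rw [prod_ne_zero_iff]
    intro j _
    rw [← pow_mul, ← pow_add]
    exact one_sub_ne (by omega)
  rw [div_eq_div_iff (mul_ne_zero (mul_ne_zero hEne hZ) hY) hEne]
  ring

theorem final {n : ℕ} (hn : n % 4 = 1) {r s : ℕ} (hs : 0 < s) (hrs : s < r) {F G : RatFunc ℚ}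
    (hF : F = algebraMap ℚ[X] (RatFunc ℚ) (∏ u ∈ range ((n ^ r - 1) / 2 + 1), gO n (X : ℚ[X]) u) /
      algebraMap ℚ[X] (RatFunc ℚ) (∏ u ∈ range ((n ^ r - 1) / 2 + 1), gE n (X : ℚ[X]) u))
    (hG : G = algebraMap ℚ[X] (RatFunc ℚ) (∏ u ∈ range ((n ^ s - 1) / 2 + 1), gO n (X : ℚ[X]) u) /
      algebraMap ℚ[X] (RatFunc ℚ) (∏ u ∈ range ((n ^ s - 1) / 2 + 1), gE n (X : ℚ[X]) u)) :
    (cyclotomic (n ^ s) ℚ) ^ 2 ∣ (F - G).num ∧
      IsCoprime ((cyclotomic (n ^ s) ℚ) ^ 2) (F - G).denom := by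
  have hn0 : 0 < n := by omega
  obtain ⟨k, hk⟩ : ∃ k, (n ^ r - 1) / 2 + 1 = (n ^ s - 1) / 2 + 1 + 2 * n ^ s * k := by
    refine ⟨(n ^ (r - s) - 1) / 4, ?_⟩
    have h1 : n ^ r = n ^ s * n ^ (r - s) := by rw [← pow_add]; congr 1; omega
    have h2 := pow_mod_four n (r - s) hn
    have h3 := pow_mod_four n s hn
    obtain ⟨a, ha⟩ : ∃ a, n ^ (r - s) = 4 * a + 1 := ⟨n ^ (r - s) / 4, by omega⟩
    obtain ⟨b, hb⟩ : ∃ b, n ^ s = 4 * b + 1 := ⟨n ^ s / 4, by omega⟩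
    have h5 : (n ^ (r - s) - 1) / 4 = a := by omega
    rw [h5, h1, ha, hb]
    have h8 : (4 * b + 1) * (4 * a + 1) = 4 * ((4 * b + 1) * a) + 4 * b + 1 := by ring
    have h9 : 2 * (4 * b + 1) * a = 2 * ((4 * b + 1) * a) := by ring
    rw [h8, h9]
    omega
  rw [hk] at hF
  have hd := dvd_diff (n := n) (s := s) (k := k) hn hs
  have hEr := gE_ne n ((n ^ s - 1) / 2 + 1 + 2 * n ^ s * k)
  have hEs := gE_ne n ((n ^ s - 1) / 2 + 1)
  have hEr' := (map_ne_zero_iff _ (RatFunc.algebraMap_injective ℚ)).2 hEr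
  have hEs' := (map_ne_zero_iff _ (RatFunc.algebraMap_injective ℚ)).2 hEs
  refine num_denom_of (mul_ne_zero hEr hEs) ?_ hd
    (IsCoprime.mul_right (coprime_E hn0 hs _) (coprime_E hn0 hs _))
  rw [hF, hG, div_sub_div _ _ hEr' hEs', map_mul, map_sub, map_mul, map_mul]
  congr 1
  ring

end Pool.Agent.Q107.QC
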