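import Mathlib

/-!
# Products `∏ (1 - x^u)` when `(x^P - 1)^2 = 0`
-/

set_option autoImplicit false

namespace Pool.Agent.Q107.QC

open Finset

variable {A : Type*} [CommRing A]

/-- the odd factors prime to `n` in the weak sense `n ∤ u` -/
def gO (n : ℕ) (x : A) (u : ℕ) : A := if u % 2 = 1 ∧ ¬ n ∣ u then 1 - x ^ u else 1

/-- the even factors -/
def gE (n : ℕ) (x : A) (u : ℕ) : A := if u % 2 = 0 ∧ ¬ n ∣ u then 1 - x ^ u else 1

/-- symmetric windows -/
theorem prod_window (g : ℕ → A) (C h : ℕ) (hC : h ≤ C) :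
    ∏ u ∈ Ico (C - h) (C + h + 1), g u = g C * ∏ w ∈ range h, (g (C + (w + 1)) * g (C - (w + 1))) := by
  induction h with
  | zero =>
    simp
  | succ h ih =>
    have h1 : C - (h + 1) < C + (h + 1) + 1 := by omega
    rw [prod_eq_prod_Ico_succ_bot h1, show C - (h + 1) + 1 = C - h by omega,
      show C + (h + 1) + 1 = C + h + 1 + 1 by ring, prod_Ico_succ_top (by omega),
      ih (by omega), prod_range_succ, show C + h + 1 = C + (h + 1) by ring]
    ring

theorem pow_sub_one_sq {x : A} {P : ℕ} (hx : (x ^ P - 1) ^ 2 = 0) (m : ℕ) :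
    (x ^ (P * m) - 1) ^ 2 = 0 := by
  have h : x ^ P - 1 ∣ (x ^ P) ^ m - 1 := by
    simpa using sub_dvd_pow_sub_pow (x ^ P) 1 m
  obtain ⟨c, hc⟩ := h
  rw [pow_mul, hc, mul_pow, hx, zero_mul]

/-- an inverse of `x` -/
theorem exists_inv {x : A} {P : ℕ} (hP : 0 < P) (hx : (x ^ P - 1) ^ 2 = 0) : ∃ y : A, x * y = 1 := by
  obtain ⟨k, rfl⟩ : ∃ k, P = k + 1 := ⟨P - 1, by omega⟩
  refine ⟨x ^ k * (2 - x ^ (k + 1)), ?_⟩
  have e : x * (x ^ k * (2 - x ^ (k + 1))) = 1 - (x ^ (k + 1) - 1) ^ 2 := by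
    rw [pow_succ]; ring
  rw [e, hx, sub_zero]

theorem pair_prod {x y : A} {P : ℕ} (hx : (x ^ P - 1) ^ 2 = 0) (hy : x * y = 1) (m w : ℕ)
    (hw : w ≤ P * m) : (1 - x ^ (P * m + w)) * (1 - x ^ (P * m - w)) =
      x ^ (P * m) * ((1 - x ^ w) * (1 - y ^ w)) := by
  have h1 := pow_sub_one_sq hx m
  have h2 : x ^ w * y ^ w = 1 := by rw [← mul_pow, hy, one_pow]
  have h3 : x ^ (P * m - w) = x ^ (P * m) * y ^ w := by
    have : x ^ (P * m) = x ^ (P * m - w) * x ^ w := by rw [← pow_add]; congr 1; omega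
    rw [this, mul_assoc, h2, mul_one]
  rw [h3, pow_add]
  linear_combination h1 + (x ^ (P * m) * x ^ (P * m) - x ^ (P * m)) * h2

/-- the sign count -/
theorem sign_sum (h : ℕ) : ∑ w ∈ range (2 * h), (-1 : ℤ) ^ (w + 1) = 0 := by
  induction h with
  | zero => simp
  | succ h ih =>
    rw [show 2 * (h + 1) = 2 * h + 1 + 1 by ring, sum_range_succ, sum_range_succ, ih]
    ring

theorem sign_sum_mult (n h' : ℕ) (hn : n % 2 = 1) : ∀ b, b < n →
    ∑ w ∈ range (n * (2 * h') + b), (if n ∣ w + 1 then (-1 : ℤ) ^ (w + 1) else 0) = 0 := by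
  have key : ∀ j b, b < n → ∑ w ∈ range (n * j + b), (if n ∣ w + 1 then (-1 : ℤ) ^ (w + 1) else 0) =
      ∑ i ∈ range j, (-1 : ℤ) ^ (i + 1) := by
    intro j
    induction j with
    | zero =>
      intro b hb
      simp only [mul_zero, zero_add, range_zero, sum_empty]
      refine sum_eq_zero fun w hw => ?_
      rw [mem_range] at hw
      rw [if_neg]
      intro hd
      have := Nat.le_of_dvd (by omega) hd
      omega
    | succ j ih =>
      intro b hb
      have h1 : n * (j + 1) + b = (n * j + (n - 1)) + (b + 1) := by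
        obtain ⟨k, rfl⟩ : ∃ k, n = k + 1 := ⟨n - 1, by omega⟩
        simp only [Nat.add_sub_cancel]
        ring
      rw [h1, sum_range_add, ih (n - 1) (by omega), sum_range_succ' _ b, sum_range_succ]
      have h2 : ∑ k ∈ range b, (if n ∣ n * j + (n - 1) + (k + 1) + 1 then
          (-1 : ℤ) ^ (n * j + (n - 1) + (k + 1) + 1) else 0) = 0 := by
        refine sum_eq_zero fun w hw => ?_
        rw [mem_range] at hw
        rw [if_neg]
        intro hd
        have e : n * j + (n - 1) + (w + 1) + 1 = n * (j + 1) + (w + 1) := by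
          obtain ⟨k, rfl⟩ : ∃ k, n = k + 1 := ⟨n - 1, by omega⟩
          simp only [Nat.add_sub_cancel]
          ring
        rw [e] at hd
        have := (Nat.dvd_add_right (Dvd.intro _ rfl)).1 hd
        have := Nat.le_of_dvd (by omega) this
        omega
      have e : n * j + (n - 1) + 0 + 1 = n * (j + 1) := by
        obtain ⟨k, rfl⟩ : ∃ k, n = k + 1 := ⟨n - 1, by omega⟩
        simp only [Nat.add_sub_cancel]
        ring
      rw [h2, e, if_pos (Dvd.intro _ rfl), zero_add]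
      congr 1
      rw [pow_mul, Odd.neg_one_pow (Nat.odd_iff.2 hn)]
  intro b hb
  rw [key _ b hb, sign_sum]

/-- `e = o`: the numbers of even and odd `w ≤ h` with `n ∤ w` agree -/
theorem card_eq (n s : ℕ) (hn : n % 4 = 1) (hs : 0 < s) :
    ((range ((n ^ s - 1) / 2)).filter fun w => (w + 1) % 2 = 0 ∧ ¬ n ∣ w + 1).card =
      ((range ((n ^ s - 1) / 2)).filter fun w => (w + 1) % 2 = 1 ∧ ¬ n ∣ w + 1).card := by
  obtain ⟨t, rfl⟩ : ∃ t, s = t + 1 := ⟨s - 1, by omega⟩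
  have hpow : ∀ k : ℕ, n ^ k % 4 = 1 := by
    intro k
    rw [Nat.pow_mod, hn, one_pow, Nat.one_mod_eq_one.2 (by norm_num)]
  obtain ⟨h, hh⟩ : ∃ h, (n ^ (t + 1) - 1) / 2 = 2 * h := ⟨(n ^ (t + 1) - 1) / 4, by
    have := hpow (t + 1); omega⟩
  have e1 : ∑ w ∈ range ((n ^ (t + 1) - 1) / 2), (-1 : ℤ) ^ (w + 1) = 0 := by
    rw [hh]; exact sign_sum h
  have e2 : ∑ w ∈ range ((n ^ (t + 1) - 1) / 2),
      (if n ∣ w + 1 then (-1 : ℤ) ^ (w + 1) else 0) = 0 := by
    have h3 : (n ^ (t + 1) - 1) / 2 = n * (2 * ((n ^ t - 1) / 4)) + (n - 1) / 2 := by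
      have h4 := hpow t
      obtain ⟨a, ha⟩ : ∃ a, n ^ t = 4 * a + 1 := ⟨n ^ t / 4, by omega⟩
      obtain ⟨b, hb⟩ : ∃ b, n = 4 * b + 1 := ⟨n / 4, by omega⟩
      have h5 : (n ^ t - 1) / 4 = a := by omega
      have h6 : (n - 1) / 2 = 2 * b := by omega
      have h7 : n ^ (t + 1) = (4 * a + 1) * (4 * b + 1) := by rw [pow_succ, ha]; rw [← hb]
      rw [h5, h6, h7, hb]
      have h8 : (4 * a + 1) * (4 * b + 1) - 1 = 2 * ((4 * b + 1) * (2 * a) + 2 * b) := by
        have : (4 * a + 1) * (4 * b + 1) = 2 * ((4 * b + 1) * (2 * a) + 2 * b) + 1 := by ring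
        omega
      rw [h8]
      omega
    rw [h3]
    exact sign_sum_mult n _ (by omega) _ (by omega)
  have e3 : ∑ w ∈ range ((n ^ (t + 1) - 1) / 2),
      (if ¬ n ∣ w + 1 then (-1 : ℤ) ^ (w + 1) else 0) = 0 := by
    have e5 : ∀ w ∈ range ((n ^ (t + 1) - 1) / 2), (if ¬ n ∣ w + 1 then (-1 : ℤ) ^ (w + 1) else 0) =
        (-1 : ℤ) ^ (w + 1) - (if n ∣ w + 1 then (-1 : ℤ) ^ (w + 1) else 0) := by
      intro w _
      split_ifs <;> simp
    rw [sum_congr rfl e5, sum_sub_distrib, e1, e2, sub_zero]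
  have e4 : ∀ w : ℕ, (if ¬ n ∣ w + 1 then (-1 : ℤ) ^ (w + 1) else 0) =
      (if (w + 1) % 2 = 0 ∧ ¬ n ∣ w + 1 then 1 else 0) -
        (if (w + 1) % 2 = 1 ∧ ¬ n ∣ w + 1 then 1 else 0) := by
    intro w
    by_cases hd : n ∣ w + 1
    · simp [hd]
    · rcases Nat.mod_two_eq_zero_or_one (w + 1) with h | h
      · rw [if_pos hd, if_pos ⟨h, hd⟩, if_neg (by omega), Even.neg_one_pow (Nat.even_iff.2 h)]
        ring
      · rw [if_pos hd, if_neg (by omega), if_pos ⟨h, hd⟩, Odd.neg_one_pow (Nat.odd_iff.2 h)]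
        ring
  rw [sum_congr rfl fun w _ => e4 w, sum_sub_distrib, sum_boole, sum_boole] at e3
  omega

/-- the products over one symmetric window -/
theorem window_O {x y : A} {n P : ℕ} (hx : (x ^ P - 1) ^ 2 = 0) (hy : x * y = 1) (hnP : n ∣ P)
    (m h C : ℕ) (hC : C = P * m) (hh : h ≤ C) (g : ℕ → A) (c : ℕ)
    (hg : ∀ u, g u = if u % 2 = c ∧ ¬ n ∣ u then 1 - x ^ u else 1) :
    ∏ u ∈ Ico (C - h) (C + h + 1), g u =
      ∏ w ∈ range h, (if (C + (w + 1)) % 2 = c ∧ ¬ n ∣ w + 1 then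
        x ^ C * ((1 - x ^ (w + 1)) * (1 - y ^ (w + 1))) else 1) := by
  have hnC : n ∣ C := hC ▸ hnP.mul_right m
  rw [prod_window g C h hh]
  have h0 : g C = 1 := by
    rw [hg, if_neg]
    rintro ⟨_, h2⟩
    exact h2 hnC
  rw [h0, one_mul]
  refine prod_congr rfl fun w hw => ?_
  rw [mem_range] at hw
  have hd1 : n ∣ C + (w + 1) ↔ n ∣ w + 1 := Nat.dvd_add_right hnC
  have hd2 : n ∣ C - (w + 1) ↔ n ∣ w + 1 := by
    constructor
    · intro h3
      have := (Nat.dvd_sub hnC h3)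
      rwa [Nat.sub_sub_self (by omega)] at this
    · intro h3
      exact Nat.dvd_sub hnC h3
  rw [hg, hg]
  by_cases hcond : (C + (w + 1)) % 2 = c ∧ ¬ n ∣ w + 1
  · rw [if_pos ⟨hcond.1, fun h => hcond.2 (hd1.1 h)⟩,
      if_pos ⟨by omega, fun h => hcond.2 (hd2.1 h)⟩, if_pos hcond, hC]
    exact pair_prod hx hy m (w + 1) (by rw [← hC]; omega)
  · rw [if_neg hcond, if_neg, if_neg, one_mul]
    · rintro ⟨h3, h4⟩
      exact hcond ⟨by omega, fun h => h4 (hd2.2 h)⟩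
    · rintro ⟨h3, h4⟩
      exact hcond ⟨h3, fun h => h4 (hd1.2 h)⟩

theorem split_prod {h n : ℕ} (z : A) (d : ℕ → A) (q : ℕ → Prop) [DecidablePred q] :
    ∏ w ∈ range h, (if q w ∧ ¬ n ∣ w + 1 then z * d w else 1) =
      z ^ ((range h).filter fun w => q w ∧ ¬ n ∣ w + 1).card *
        ∏ w ∈ (range h).filter (fun w => q w ∧ ¬ n ∣ w + 1), d w := by
  rw [← prod_filter, prod_mul_distrib, prod_const]

/-- two consecutive windows -/
theorem double_window {x : A} {n s : ℕ} (hn : n % 4 = 1) (hs : 0 < s)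
    (hx : (x ^ (n ^ s) - 1) ^ 2 = 0) (k : ℕ) :
    ∏ u ∈ Ico ((n ^ s - 1) / 2 + 1 + 2 * n ^ s * k) ((n ^ s - 1) / 2 + 1 + 2 * n ^ s * (k + 1)),
      gO n x u =
    ∏ u ∈ Ico ((n ^ s - 1) / 2 + 1 + 2 * n ^ s * k) ((n ^ s - 1) / 2 + 1 + 2 * n ^ s * (k + 1)),
      gE n x u := by
  have hodd : n ^ s % 2 = 1 := by
    rw [Nat.pow_mod, show n % 2 = 1 by omega, one_pow, Nat.one_mod_eq_one.2 (by norm_num)]
  have hcard := card_eq n s hn hs
  set P := n ^ s with hPdef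
  set h := (P - 1) / 2 with hh
  have hP2 : P = 2 * h + 1 := by omega
  have hPpos : 0 < P := by omega
  have hnP : n ∣ P := hPdef ▸ dvd_pow_self n (by omega)
  obtain ⟨y, hy⟩ := exists_inv hPpos hx
  have c1 : P * (2 * k + 1) - h = h + 1 + 2 * P * k := by
    have : P * (2 * k + 1) = 2 * P * k + P := by ring
    omega
  have c2 : P * (2 * k + 1) + h + 1 = P * (2 * k + 2) - h := by
    have h1 : P * (2 * k + 1) = 2 * P * k + P := by ring
    have h2 : P * (2 * k + 2) = 2 * P * k + 2 * P := by ring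
    omega
  have c3 : P * (2 * k + 2) + h + 1 = h + 1 + 2 * P * (k + 1) := by ring
  have hle1 : h ≤ P * (2 * k + 1) := by
    have h1 : P * (2 * k + 1) = 2 * P * k + P := by ring
    omega
  have hle2 : h ≤ P * (2 * k + 2) := by
    have h1 : P * (2 * k + 2) = 2 * P * k + 2 * P := by ring
    omega
  have hsplit : ∀ g : ℕ → A, ∏ u ∈ Ico (h + 1 + 2 * P * k) (h + 1 + 2 * P * (k + 1)), g u =
      (∏ u ∈ Ico (P * (2 * k + 1) - h) (P * (2 * k + 1) + h + 1), g u) *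
        ∏ u ∈ Ico (P * (2 * k + 2) - h) (P * (2 * k + 2) + h + 1), g u := by
    intro g
    rw [← c1, ← c3, ← c2]
    rw [prod_Ico_consecutive]
    · omega
    · rw [c2]; omega
  rw [hsplit, hsplit]
  rw [window_O hx hy hnP (2 * k + 1) h _ rfl hle1 (gO n x) 1 (fun u => rfl),
    window_O hx hy hnP (2 * k + 2) h _ rfl hle2 (gO n x) 1 (fun u => rfl),
    window_O hx hy hnP (2 * k + 1) h _ rfl hle1 (gE n x) 0 (fun u => rfl),
    window_O hx hy hnP (2 * k + 2) h _ rfl hle2 (gE n x) 0 (fun u => rfl)]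
  have p1 : ∀ w, (P * (2 * k + 1) + (w + 1)) % 2 = 1 ↔ (w + 1) % 2 = 0 := by
    intro w
    have h1 : P * (2 * k + 1) = 2 * (P * k) + P := by ring
    omega
  have p2 : ∀ w, (P * (2 * k + 2) + (w + 1)) % 2 = 1 ↔ (w + 1) % 2 = 1 := by
    intro w
    have h1 : P * (2 * k + 2) = 2 * (P * k) + 2 * P := by ring
    omega
  have p3 : ∀ w, (P * (2 * k + 1) + (w + 1)) % 2 = 0 ↔ (w + 1) % 2 = 1 := by
    intro w
    have h1 : P * (2 * k + 1) = 2 * (P * k) + P := by ring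
    omega
  have p4 : ∀ w, (P * (2 * k + 2) + (w + 1)) % 2 = 0 ↔ (w + 1) % 2 = 0 := by
    intro w
    have h1 : P * (2 * k + 2) = 2 * (P * k) + 2 * P := by ring
    omega
  simp only [p1, p2, p3, p4]
  rw [split_prod, split_prod, split_prod, split_prod, hcard]
  ring

/-- the main identity in the ring -/
theorem ratio_eq {x : A} {n s : ℕ} (hn : n % 4 = 1) (hs : 0 < s)
    (hx : (x ^ (n ^ s) - 1) ^ 2 = 0) (k : ℕ) :
    (∏ u ∈ range ((n ^ s - 1) / 2 + 1 + 2 * n ^ s * k), gO n x u) *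
      (∏ u ∈ range ((n ^ s - 1) / 2 + 1), gE n x u) =
    (∏ u ∈ range ((n ^ s - 1) / 2 + 1), gO n x u) *
      (∏ u ∈ range ((n ^ s - 1) / 2 + 1 + 2 * n ^ s * k), gE n x u) := by
  induction k with
  | zero => simp
  | succ k ih =>
    have hle : (n ^ s - 1) / 2 + 1 + 2 * n ^ s * k ≤ (n ^ s - 1) / 2 + 1 + 2 * n ^ s * (k + 1) := by
      have : 2 * n ^ s * (k + 1) = 2 * n ^ s * k + 2 * n ^ s := by ring
      omega
    rw [← prod_range_mul_prod_Ico (gO n x) hle, ← prod_range_mul_prod_Ico (gE n x) hle,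
      double_window hn hs hx k]
    linear_combination (∏ u ∈ Ico ((n ^ s - 1) / 2 + 1 + 2 * n ^ s * k)
      ((n ^ s - 1) / 2 + 1 + 2 * n ^ s * (k + 1)), gE n x u) * ih

end Pool.Agent.Q107.QC
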